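import Pool.Agent.TH463.Kag.Seeds

/-!
The dynamics for 3 colours on the smallest periodic kagome lattice is ergodic.
-/

set_option autoImplicit false

namespace Pool.Agent.TH463.Kag

open Finset Pool.Agent.H411R2.WSK

lemma exists_code : ∀ p q r : Fin 3, p ≠ q → p ≠ r → q ≠ r →
    ∃ m : Fin 6, pc m 0 = p ∧ pc m 1 = q ∧ pc m 2 = r := by decide +kernel

lemma exists_perm : ∀ m : Fin 6, ∃ σ : Equiv.Perm (Fin 3), ∀ x, σ x = pc m x := by decide +kernel

/-- the function with given codes -/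
def fc (m : Fin 2 → Fin 2 → Fin 6) : Cell 2 → Fin 3 → Fin 3 := fun x d => pc (m x.1 x.2) d

/-- the row of a cell in the direction `d` -/
def row (d : Fin 3) (x : Cell 2) : ZMod 2 := if d = 0 then x.1 + x.2 else if d = 1 then x.1 else x.2

/-- a zigzag cycle, or the empty set -/
def zig (d v : Fin 3) (x : Cell 2) (d' : Fin 3) : Bool :=
  (v != 2) && ((d' != d) && ((row d x).val == v.val))

/-- closedness in coordinates -/
def ClosedF (f : Cell 2 → Fin 3 → Fin 3) (a b : Fin 3) (u : Cell 2 → Fin 3 → Bool) : Prop :=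
  ∀ (d d' : Fin 3), d ≠ d' → ∀ x : Cell 2, okp a b (f x d) (f x d') (u x d) (u x d') ∧
    okp a b (f (x + off 2 d) d) (f (x + off 2 d') d') (u (x + off 2 d) d) (u (x + off 2 d') d')

instance (f : Cell 2 → Fin 3 → Fin 3) (a b : Fin 3) (u : Cell 2 → Fin 3 → Bool) :
    Decidable (ClosedF f a b u) := by unfold ClosedF; infer_instance

/-- one swap makes the colouring uniform -/
def Cert (f : Cell 2 → Fin 3 → Fin 3) : Prop :=
  ∃ d v : Fin 3, ClosedF f (f 0 d + 1) (f 0 d + 2) (zig d v) ∧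
    ∃ m : Fin 6, ∀ (d' : Fin 3) (x : Cell 2),
      sw (f 0 d + 1) (f 0 d + 2) (zig d v x d') (f x d') = pc m d'

instance (f : Cell 2 → Fin 3 → Fin 3) : Decidable (Cert f) := by unfold Cert; infer_instance

/-- the codes of a valid function -/
def BV (m : Fin 2 → Fin 2 → Fin 6) : Prop :=
  ∀ x : Cell 2, fc m x 0 ≠ fc m (x + (1, 0)) 1 ∧ fc m x 0 ≠ fc m (x + (0, 1)) 2 ∧
      fc m (x + (1, 0)) 1 ≠ fc m (x + (0, 1)) 2

instance (m : Fin 2 → Fin 2 → Fin 6) : Decidable (BV m) := by unfold BV; infer_instance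

/-- a function given by its four values -/
def four (a b c d : Fin 6) : Fin 2 → Fin 2 → Fin 6 := fun i j =>
  if i = 0 then (if j = 0 then a else b) else (if j = 0 then c else d)

lemma cert_four : ∀ a b c d : Fin 6, BV (four a b c d) → Cert (fc (four a b c d)) := by
  decide +kernel

lemma cert {f : Cell 2 → Fin 3 → Fin 3} (hf : Valid f) : Cert f := by
  have h : ∀ x : Cell 2, ∃ m : Fin 6, ∀ d, pc m d = f x d := by
    intro x
    obtain ⟨⟨h1, h2, h3⟩, -⟩ := hf x
    obtain ⟨m, e0, e1, e2⟩ := exists_code _ _ _ h1 h2 h3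
    refine ⟨m, fun d => ?_⟩
    fin_cases d
    · exact e0
    · exact e1
    · exact e2
  choose m hm using h
  have e : f = fc (four (m ((0 : Fin 2), (0 : Fin 2))) (m ((0 : Fin 2), (1 : Fin 2)))
      (m ((1 : Fin 2), (0 : Fin 2))) (m ((1 : Fin 2), (1 : Fin 2)))) := by
    funext ⟨i, j⟩ d
    rw [← hm]
    unfold fc four
    change Fin 2 at i
    change Fin 2 at j
    fin_cases i <;> fin_cases j <;> rfl
  rw [e] at hf ⊢
  exact cert_four _ _ _ _ fun x => (hf x).2

theorem kagome_two : WSKErgodic (kagome 2) 3 := by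
  have h2 : 2 ≤ 2 := le_rfl
  have hfin : Finite (honeycomb 2).edgeSet := Finite.of_surjective (ed 2) ed_surj
  have hu : Proper (kagome 2) (toK h2 (fun (_ : Cell 2) (d : Fin 3) => d)) :=
    proper_toK h2 valid_unif
  refine ergodic_of_conn (base := toK h2 (fun (_ : Cell 2) (d : Fin 3) => d)) ?_
  intro c hc
  have hv := valid_of_proper h2 hc
  obtain ⟨d, v, hcl, m, hm⟩ := cert hv
  set a := c (ed 2 (0, d)) + 1 with ha
  set b := c (ed 2 (0, d)) + 2 with hb
  have hab : a ≠ b := by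
    rw [ha, hb]
    generalize c (ed 2 (0, d)) = z
    revert z
    decide
  let U : Set (honeycomb 2).edgeSet :=
    {e | zig d v ((edE h2).symm e).1 ((edE h2).symm e).2 = true}
  have hU : ∀ e : Cell 2 × Fin 3, ed 2 e ∈ U ↔ zig d v e.1 e.2 = true := by
    intro e
    show zig d v ((edE h2).symm (ed 2 e)).1 ((edE h2).symm (ed 2 e)).2 = true ↔ _
    rw [← edE_apply h2, Equiv.symm_apply_apply]
  have key : ∀ x x' d1 d2, (kagome 2).Adj (ed 2 (x, d1)) (ed 2 (x', d2)) →
      okp a b (c (ed 2 (x, d1))) (c (ed 2 (x', d2))) (zig d v x d1) (zig d v x' d2) := by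
    intro x x' d1 d2 h
    obtain ⟨h3, h4⟩ := (kag_adj h2).1 h
    rcases h4 with rfl | h4
    · exact (hcl d1 d2 (fun e => h3 (by rw [e])) x).1
    · have hd : d1 ≠ d2 := by
        rintro rfl
        exact h3 (by rw [sub_left_inj.1 h4])
      have h5 := (hcl d1 d2 hd (x - off 2 d1)).2
      rw [sub_add_cancel] at h5
      rw [h4, sub_add_cancel] at h5
      exact h5
  have hne : ∀ e : Cell 2 × Fin 3, ∃ e' : Cell 2 × Fin 3, (kagome 2).Adj (ed 2 e) (ed 2 e') := by
    rintro ⟨x, d1⟩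
    refine ⟨(x, d1 + 1), (kag_adj h2).2 ⟨?_, Or.inl rfl⟩⟩
    intro e
    have h6 : d1 = d1 + 1 := (Prod.ext_iff.1 e).2
    have h7 : ∀ z : Fin 3, z ≠ z + 1 := by decide
    exact h7 d1 h6
  have hclosed : Closed (kagome 2) c a b U := by
    constructor
    · intro w hw
      obtain ⟨⟨x, d1⟩, rfl⟩ := ed_surj w
      obtain ⟨⟨x', d2⟩, h⟩ := hne (x, d1)
      exact (key _ _ _ _ h).1 ((hU _).1 hw)
    · intro w hw w' hww' hcw
      obtain ⟨⟨x, d1⟩, rfl⟩ := ed_surj w
      obtain ⟨⟨x', d2⟩, rfl⟩ := ed_surj w'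
      have h := key _ _ _ _ hww'
      rw [hU] at hw ⊢
      rw [← h.2.2 (h.1 hw) hcw]
      exact hw
  have h1 := conn_of_closed hc hab hclosed (swapOn_isSwap c a b U)
  obtain ⟨σ, hσ⟩ := exists_perm m
  have h3 : swapOn c a b U = fun e => σ (toK h2 (fun (_ : Cell 2) (d : Fin 3) => d) e) := by
    funext e
    obtain ⟨⟨x, d1⟩, rfl⟩ := ed_surj e
    rw [toK_ed, hσ]
    have h4 := hm d1 x
    rw [← h4]
    unfold swapOn sw
    by_cases h5 : ed 2 (x, d1) ∈ U
    · rw [if_pos h5, if_pos ((hU _).1 h5)]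
    · rw [if_neg h5, if_neg (fun h6 => h5 ((hU _).2 h6))]
  rw [h3] at h1
  exact h1.trans (Conn.perm hu σ).symm

end Pool.Agent.TH463.Kag
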