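import Pool.Agent.H411R2.WSK.Conn

/-!
The periodic kagome lattice in coordinates: edges of the honeycomb graph are pairs `(x, d)`.
-/

set_option autoImplicit false

namespace Pool.Agent.TH463.Kag

open Pool.Agent.H411R2.WSK

variable {n : ℕ}

/-- cells -/
abbrev Cell (n : ℕ) : Type := ZMod n × ZMod n

/-- the offset of the `B`-end of the edge number `d` -/
def off (n : ℕ) (d : Fin 3) : Cell n := if d = 0 then (0, 0) else if d = 1 then (1, 0) else (0, 1)

lemma off_zero : off n 0 = 0 := rfl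
lemma off_one : off n 1 = (1, 0) := rfl
lemma off_two : off n 2 = (0, 1) := rfl

lemma hc_adj {x y : Cell n} :
    (honeycomb n).Adj (Sum.inl x) (Sum.inr y) ↔ ∃ d, y = x - off n d := by
  unfold honeycomb
  rw [SimpleGraph.fromRel_adj]
  constructor
  · rintro ⟨-, ⟨z, hz, h⟩ | ⟨z, hz, -⟩⟩
    · obtain rfl := Sum.inl.inj hz
      rcases h with h | h | h
      · exact ⟨0, by rw [off_zero, sub_zero]; exact Sum.inr.inj h⟩
      · exact ⟨1, Sum.inr.inj h⟩
      · exact ⟨2, Sum.inr.inj h⟩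
    · cases hz
  · rintro ⟨d, rfl⟩
    refine ⟨by simp, Or.inl ⟨x, rfl, ?_⟩⟩
    fin_cases d
    · left
      show Sum.inr (x - off n 0) = _
      rw [off_zero, sub_zero]
    · right; left; rfl
    · right; right; rfl

lemma off_inj (hn : 2 ≤ n) : Function.Injective (off n) := by
  have h01 : (0 : ZMod n) ≠ 1 := by
    have : Fact (1 < n) := ⟨by omega⟩
    exact zero_ne_one
  intro d d' h
  fin_cases d <;> fin_cases d' <;> simp_all [off, Prod.ext_iff]

/-- the edge `(x, d)` -/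
def ed (n : ℕ) (e : Cell n × Fin 3) : (honeycomb n).edgeSet :=
  ⟨s(Sum.inl e.1, Sum.inr (e.1 - off n e.2)), hc_adj.2 ⟨e.2, rfl⟩⟩

lemma ed_inj (hn : 2 ≤ n) : Function.Injective (ed n) := by
  rintro ⟨x, d⟩ ⟨x', d'⟩ h
  have h1 : s(Sum.inl x, Sum.inr (x - off n d)) =
      (s(Sum.inl x', Sum.inr (x' - off n d')) : Sym2 (Cell n ⊕ Cell n)) := congrArg Subtype.val h
  rw [Sym2.eq_iff] at h1
  rcases h1 with ⟨h1, h2⟩ | ⟨h1, h2⟩
  · obtain rfl := Sum.inl.inj h1
    have h3 := Sum.inr.inj h2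
    have h4 : off n d = off n d' := by
      have := congrArg (fun z => x - z) h3
      simpa using this
    rw [off_inj hn h4]
  · cases h1

lemma ed_surj : Function.Surjective (ed n) := by
  rintro ⟨e, he⟩
  revert he
  refine Sym2.ind (fun u v => ?_) e
  intro he
  have he' : (honeycomb n).Adj u v := he
  rcases u with x | x <;> rcases v with y | y
  · exfalso
    unfold honeycomb at he'
    rw [SimpleGraph.fromRel_adj] at he'
    rcases he' with ⟨-, ⟨z, -, h | h | h⟩ | ⟨z, -, h | h | h⟩⟩ <;> cases h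
  · obtain ⟨d, rfl⟩ := hc_adj.1 he'
    exact ⟨(x, d), rfl⟩
  · obtain ⟨d, rfl⟩ := hc_adj.1 he'.symm
    exact ⟨(y, d), Subtype.ext Sym2.eq_swap⟩
  · exfalso
    unfold honeycomb at he'
    rw [SimpleGraph.fromRel_adj] at he'
    rcases he' with ⟨-, ⟨z, h, -⟩ | ⟨z, h, -⟩⟩ <;> cases h

/-- the numbering of the edges -/
noncomputable def edE (hn : 2 ≤ n) : Cell n × Fin 3 ≃ (honeycomb n).edgeSet :=
  Equiv.ofBijective (ed n) ⟨ed_inj hn, ed_surj⟩

lemma edE_apply (hn : 2 ≤ n) (e : Cell n × Fin 3) : edE hn e = ed n e := rfl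

/-- adjacency in the kagome lattice -/
lemma kag_adj (hn : 2 ≤ n) {x x' : Cell n} {d d' : Fin 3} :
    (kagome n).Adj (ed n (x, d)) (ed n (x', d')) ↔
      (x, d) ≠ (x', d') ∧ (x = x' ∨ x - off n d = x' - off n d') := by
  unfold kagome
  rw [SimpleGraph.lineGraph_adj_iff_exists]
  constructor
  · rintro ⟨h1, v, h2, h3⟩
    refine ⟨fun h => h1 (congrArg (ed n) h), ?_⟩
    have h2' : v ∈ s(Sum.inl x, Sum.inr (x - off n d)) := h2
    have h3' : v ∈ s(Sum.inl x', Sum.inr (x' - off n d')) := h3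
    rw [Sym2.mem_iff] at h2' h3'
    rcases h2' with rfl | rfl <;> rcases h3' with h | h
    · left; exact Sum.inl.inj h
    · cases h
    · cases h
    · right; exact Sum.inr.inj h
  · rintro ⟨h1, h2⟩
    refine ⟨fun h => h1 (ed_inj hn h), ?_⟩
    rcases h2 with rfl | h2
    · exact ⟨Sum.inl x, Sym2.mem_mk_left _ _, Sym2.mem_mk_left _ _⟩
    · refine ⟨Sum.inr (x - off n d), Sym2.mem_mk_right _ _, ?_⟩
      show _ ∈ s(Sum.inl x', Sum.inr (x' - off n d'))
      rw [h2]
      exact Sym2.mem_mk_right _ _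

/-- the colours around the `A`-vertex `x` are distinct, and so are those around the `B`-vertex `x` -/
def Valid (f : Cell n → Fin 3 → Fin 3) : Prop :=
  ∀ x : Cell n, (f x 0 ≠ f x 1 ∧ f x 0 ≠ f x 2 ∧ f x 1 ≠ f x 2) ∧
    (f x 0 ≠ f (x + (1, 0)) 1 ∧ f x 0 ≠ f (x + (0, 1)) 2 ∧
      f (x + (1, 0)) 1 ≠ f (x + (0, 1)) 2)

lemma valid_off {f : Cell n → Fin 3 → Fin 3} (hf : Valid f) (y : Cell n) (d d' : Fin 3)
    (h : d ≠ d') : f (y + off n d) d ≠ f (y + off n d') d' := by
  obtain ⟨-, h1, h2, h3⟩ := hf y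
  fin_cases d <;> fin_cases d'
  · exact absurd rfl h
  · show f (y + off n 0) 0 ≠ f (y + off n 1) 1
    rw [off_zero, add_zero]; exact h1
  · show f (y + off n 0) 0 ≠ f (y + off n 2) 2
    rw [off_zero, add_zero]; exact h2
  · show f (y + off n 1) 1 ≠ f (y + off n 0) 0
    rw [off_zero, add_zero]; exact h1.symm
  · exact absurd rfl h
  · exact h3
  · show f (y + off n 2) 2 ≠ f (y + off n 0) 0
    rw [off_zero, add_zero]; exact h2.symm
  · exact h3.symm
  · exact absurd rfl h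

lemma valid_same {f : Cell n → Fin 3 → Fin 3} (hf : Valid f) (x : Cell n) (d d' : Fin 3)
    (h : d ≠ d') : f x d ≠ f x d' := by
  obtain ⟨⟨h1, h2, h3⟩, -⟩ := hf x
  fin_cases d <;> fin_cases d'
  · exact absurd rfl h
  · exact h1
  · exact h2
  · exact h1.symm
  · exact absurd rfl h
  · exact h3
  · exact h2.symm
  · exact h3.symm
  · exact absurd rfl h

/-- the colouring of the kagome lattice given by a valid function -/
noncomputable def toK (hn : 2 ≤ n) (f : Cell n → Fin 3 → Fin 3) : (honeycomb n).edgeSet → Fin 3 :=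
  fun e => f ((edE hn).symm e).1 ((edE hn).symm e).2

lemma toK_ed (hn : 2 ≤ n) (f : Cell n → Fin 3 → Fin 3) (e : Cell n × Fin 3) :
    toK hn f (ed n e) = f e.1 e.2 := by
  unfold toK
  rw [← edE_apply hn, Equiv.symm_apply_apply]

lemma proper_toK (hn : 2 ≤ n) {f : Cell n → Fin 3 → Fin 3} (hf : Valid f) :
    Proper (kagome n) (toK hn f) := by
  intro v w h
  obtain ⟨⟨x, d⟩, rfl⟩ := ed_surj v
  obtain ⟨⟨x', d'⟩, rfl⟩ := ed_surj w
  rw [toK_ed, toK_ed]
  obtain ⟨h1, h2⟩ := (kag_adj hn).1 h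
  rcases h2 with rfl | h2
  · exact valid_same hf x d d' (fun e => h1 (by rw [e]))
  · have hd : d ≠ d' := by
      rintro rfl
      exact h1 (by rw [sub_left_inj.1 h2])
    have e1 : x = (x - off n d) + off n d := by abel
    have e2 : x' = (x - off n d) + off n d' := by rw [h2]; abel
    show f x d ≠ f x' d'
    rw [e1, e2]
    simpa using valid_off hf (x - off n d) d d' hd

lemma valid_of_proper (hn : 2 ≤ n) {c : (honeycomb n).edgeSet → Fin 3} (hc : Proper (kagome n) c) :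
    Valid fun x d => c (ed n (x, d)) := by
  have hA : ∀ x d d', d ≠ d' → c (ed n (x, d)) ≠ c (ed n (x, d')) := fun x d d' h =>
    hc _ _ ((kag_adj hn).2 ⟨fun e => h (Prod.ext_iff.1 e).2, Or.inl rfl⟩)
  have hB : ∀ x d d', d ≠ d' → c (ed n (x + off n d, d)) ≠ c (ed n (x + off n d', d')) :=
    fun x d d' h => hc _ _ ((kag_adj hn).2 ⟨fun e => h (Prod.ext_iff.1 e).2, Or.inr (by abel)⟩)
  intro x
  refine ⟨⟨hA x 0 1 (by decide), hA x 0 2 (by decide), hA x 1 2 (by decide)⟩, ?_, ?_, ?_⟩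
  · have := hB x 0 1 (by decide)
    rwa [off_zero, add_zero] at this
  · have := hB x 0 2 (by decide)
    rwa [off_zero, add_zero] at this
  · exact hB x 1 2 (by decide)

end Pool.Agent.TH463.Kag
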