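import Pool.Agent.TH463.Kag.Seeds

/-!
The kagome lattice of every size at least 3 has colourings of both parities.
-/

set_option autoImplicit false

namespace Pool.Agent.TH463.Kag

open Finset Pool.Agent.H411R2.WSK

lemma odd3 : Odd' 3 :=
  odd_of_table (T := tb S3) (by norm_num) (by decide +kernel) (by decide +kernel)

lemma odd4 : Odd' 4 :=
  odd_of_table (T := tb S4) (by norm_num) (by decide +kernel) (by decide +kernel)

lemma odd6 : Odd' 6 :=
  odd_of_table (T := tb S6) (by norm_num) (by decide +kernel) (by decide +kernel)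

lemma odd5 (t : ℕ) : Odd' (5 + 2 * t) :=
  odd_of_rep (T := tb S5) t (by norm_num) (by norm_num) (by norm_num) (by decide +kernel)
    (by decide +kernel) (by decide +kernel) (by decide +kernel) (by decide +kernel)
    (by decide +kernel)

lemma odd8 (t : ℕ) : Odd' (8 + 4 * t) :=
  odd_of_rep (T := tb S8) t (by norm_num) (by norm_num) (by norm_num) (by decide +kernel)
    (by decide +kernel) (by decide +kernel) (by decide +kernel) (by decide +kernel)
    (by decide +kernel)

lemma odd10 (t : ℕ) : Odd' (10 + 4 * t) :=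
  odd_of_rep (T := tb S10) t (by norm_num) (by norm_num) (by norm_num) (by decide +kernel)
    (by decide +kernel) (by decide +kernel) (by decide +kernel) (by decide +kernel)
    (by decide +kernel)

lemma odd_all {n : ℕ} (hn : 3 ≤ n) : Odd' n := by
  have h : n = 3 ∨ n = 4 ∨ n = 6 ∨ n = 5 + 2 * ((n - 5) / 2) ∨ n = 8 + 4 * ((n - 8) / 4) ∨
      n = 10 + 4 * ((n - 10) / 4) := by omega
  rcases h with h | h | h | h | h | h <;> rw [h]
  · exact odd3
  · exact odd4
  · exact odd6
  · exact odd5 _
  · exact odd8 _
  · exact odd10 _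

theorem kagome_not_ergodic {n : ℕ} (hn : 3 ≤ n) : ¬ WSKErgodic (kagome n) 3 := by
  obtain ⟨_, f, hf, hp⟩ := odd_all hn
  refine not_ergodic (by omega) hf valid_unif ?_
  rw [hp, par_unif]
  decide

end Pool.Agent.TH463.Kag
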