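import Pool.Agent.TH463.Kag.Base

/-!
The parity of a 3-edge-colouring of the periodic honeycomb graph is invariant under Kempe changes.
-/

set_option autoImplicit false

namespace Pool.Agent.TH463.Kag

open Pool.Agent.H411R2.WSK

variable {n : ℕ}

/-- orientation sign of three distinct colours -/
def sg (p q r : Fin 3) : ℤ := if q = p + 1 ∧ r = q + 1 then 1 else -1

/-- the parity -/
def par [NeZero n] (f : Cell n → Fin 3 → Fin 3) : ℤ :=
  (∏ x : Cell n, sg (f x 0) (f x 1) (f x 2)) *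
    ∏ x : Cell n, sg (f x 0) (f (x + (1, 0)) 1) (f (x + (0, 1)) 2)

/-- the swapped colour -/
def sw (a b : Fin 3) (u : Bool) (p : Fin 3) : Fin 3 := if u then Equiv.swap a b p else p

/-- the weight of an edge -/
def wt (a : Fin 3) (u : Bool) (p : Fin 3) : ℤ := if u = true ∧ p = a then -1 else 1

/-- the conditions on a pair of adjacent edges -/
def okp (a b p q : Fin 3) (u v : Bool) : Prop :=
  (u = true → p = a ∨ p = b) ∧ (v = true → q = a ∨ q = b) ∧
    ((p = a ∨ p = b) → (q = a ∨ q = b) → u = v)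

instance (a b p q : Fin 3) (u v : Bool) : Decidable (okp a b p q u v) := by
  unfold okp; infer_instance

lemma loc : ∀ a b p q r : Fin 3, a ≠ b → p ≠ q → p ≠ r → q ≠ r → ∀ u v w : Bool,
    okp a b p q u v → okp a b p r u w → okp a b q r v w →
    sg (sw a b u p) (sw a b v q) (sw a b w r) =
      sg p q r * (wt a u p * wt a v q * wt a w r) := by
  decide +kernel

lemma wt_sq (a : Fin 3) (u : Bool) (p : Fin 3) : wt a u p * wt a u p = 1 := by
  unfold wt; split_ifs <;> rfl

variable [NeZero n]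

lemma par_swap {f g : Cell n → Fin 3 → Fin 3} (hf : Valid f) {a b : Fin 3} (hab : a ≠ b)
    (u : Cell n → Fin 3 → Bool) (hg : ∀ x d, g x d = sw a b (u x d) (f x d))
    (hA : ∀ x d d', d ≠ d' → okp a b (f x d) (f x d') (u x d) (u x d'))
    (hB : ∀ x d d', d ≠ d' → okp a b (f (x + off n d) d) (f (x + off n d') d')
      (u (x + off n d) d) (u (x + off n d') d')) : par g = par f := by
  have e1 : ∀ x : Cell n, sg (g x 0) (g x 1) (g x 2) = sg (f x 0) (f x 1) (f x 2) *
      (wt a (u x 0) (f x 0) * wt a (u x 1) (f x 1) * wt a (u x 2) (f x 2)) := by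
    intro x
    rw [hg, hg, hg]
    obtain ⟨⟨h1, h2, h3⟩, -⟩ := hf x
    exact loc a b _ _ _ hab h1 h2 h3 _ _ _ (hA x 0 1 (by decide)) (hA x 0 2 (by decide))
      (hA x 1 2 (by decide))
  have e2 : ∀ x : Cell n, sg (g x 0) (g (x + (1, 0)) 1) (g (x + (0, 1)) 2) =
      sg (f x 0) (f (x + (1, 0)) 1) (f (x + (0, 1)) 2) *
      (wt a (u x 0) (f x 0) * wt a (u (x + (1, 0)) 1) (f (x + (1, 0)) 1) *
        wt a (u (x + (0, 1)) 2) (f (x + (0, 1)) 2)) := by
    intro x
    rw [hg, hg, hg]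
    obtain ⟨-, h1, h2, h3⟩ := hf x
    have b1 := hB x 0 1 (by decide)
    have b2 := hB x 0 2 (by decide)
    rw [off_zero, add_zero] at b1 b2
    exact loc a b _ _ _ hab h1 h2 h3 _ _ _ b1 b2 (hB x 1 2 (by decide))
  unfold par
  rw [Finset.prod_congr rfl fun x _ => e1 x, Finset.prod_congr rfl fun x _ => e2 x,
    Finset.prod_mul_distrib, Finset.prod_mul_distrib, Finset.prod_mul_distrib,
    Finset.prod_mul_distrib, Finset.prod_mul_distrib, Finset.prod_mul_distrib]
  have r1 : ∏ x : Cell n, wt a (u (x + (1, 0)) 1) (f (x + (1, 0)) 1) =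
      ∏ x : Cell n, wt a (u x 1) (f x 1) :=
    Fintype.prod_equiv (Equiv.addRight ((1, 0) : Cell n)) _ _ fun x => rfl
  have r2 : ∏ x : Cell n, wt a (u (x + (0, 1)) 2) (f (x + (0, 1)) 2) =
      ∏ x : Cell n, wt a (u x 2) (f x 2) :=
    Fintype.prod_equiv (Equiv.addRight ((0, 1) : Cell n)) _ _ fun x => rfl
  rw [r1, r2]
  have s : ∀ d : Fin 3, (∏ x : Cell n, wt a (u x d) (f x d)) * (∏ x : Cell n, wt a (u x d) (f x d))
      = 1 := by
    intro d
    rw [← Finset.prod_mul_distrib]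
    exact Finset.prod_eq_one fun x _ => wt_sq _ _ _
  have s0 := s 0
  have s1 := s 1
  have s2 := s 2
  set P0 := ∏ x : Cell n, wt a (u x 0) (f x 0)
  set P1 := ∏ x : Cell n, wt a (u x 1) (f x 1)
  set P2 := ∏ x : Cell n, wt a (u x 2) (f x 2)
  set S1 := ∏ x : Cell n, sg (f x 0) (f x 1) (f x 2)
  set S2 := ∏ x : Cell n, sg (f x 0) (f (x + (1, 0)) 1) (f (x + (0, 1)) 2)
  calc S1 * (P0 * P1 * P2) * (S2 * (P0 * P1 * P2))
      = S1 * S2 * (P0 * P0) * (P1 * P1) * (P2 * P2) := by ring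
    _ = S1 * S2 := by rw [s0, s1, s2]; ring

/-- the function of a colouring -/
def fn (c : (honeycomb n).edgeSet → Fin 3) : Cell n → Fin 3 → Fin 3 := fun x d => c (ed n (x, d))

theorem par_step (hn : 2 ≤ n) {c c' : (kagome n).Coloring (Fin 3)} (h : KempeStep c c') :
    par (fn c') = par (fn c) := by
  classical
  obtain ⟨a, b, hab, U, hU, hs⟩ := h.closed
  have hv : Valid (fn (c : (honeycomb n).edgeSet → Fin 3)) :=
    valid_of_proper hn fun v w h => c.valid h
  have key : ∀ v w, (kagome n).Adj v w →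
      okp a b (c v) (c w) (decide (v ∈ U)) (decide (w ∈ U)) := by
    intro v w hvw
    refine ⟨fun h => hU.1 v (of_decide_eq_true h), fun h => hU.1 w (of_decide_eq_true h), ?_⟩
    intro h1 h2
    rw [decide_eq_decide]
    exact ⟨fun h => hU.2 v h w hvw h2, fun h => hU.2 w h v hvw.symm h1⟩
  refine par_swap hv hab (fun x d => decide (ed n (x, d) ∈ U)) ?_ ?_ ?_
  · intro x d
    unfold sw fn
    by_cases hx : ed n (x, d) ∈ U
    · simp only [hx, decide_true, if_true]
      exact hs.1 _ hx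
    · simp only [hx, decide_false, Bool.false_eq_true, if_false]
      exact hs.2 _ hx
  · intro x d d' hd
    exact key _ _ ((kag_adj hn).2 ⟨fun e => hd (Prod.ext_iff.1 e).2, Or.inl rfl⟩)
  · intro x d d' hd
    exact key _ _ ((kag_adj hn).2 ⟨fun e => hd (Prod.ext_iff.1 e).2, Or.inr (by abel)⟩)

theorem par_reach (hn : 2 ≤ n) {c c' : (kagome n).Coloring (Fin 3)}
    (h : Relation.ReflTransGen KempeStep c c') : par (fn c') = par (fn c) := by
  induction h with
  | refl => rfl
  | tail _ h ih => rw [par_step hn h, ih]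

/-- two valid functions of different parity show that the dynamics is not ergodic -/
theorem not_ergodic (hn : 2 ≤ n) {f g : Cell n → Fin 3 → Fin 3} (hf : Valid f) (hg : Valid g)
    (h : par f ≠ par g) : ¬ WSKErgodic (kagome n) 3 := by
  intro he
  have h1 := par_reach hn (he (toCol _ (proper_toK hn hf)) (toCol _ (proper_toK hn hg)))
  have e : ∀ {f : Cell n → Fin 3 → Fin 3} (hf : Valid f),
      fn (toCol _ (proper_toK hn hf)) = f := by
    intro f hf
    funext x d
    show toK hn f (ed n (x, d)) = f x d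
    rw [toK_ed]
  rw [e hf, e hg] at h1
  exact h h1.symm

/-- the uniform colouring -/
lemma valid_unif : Valid (fun (_ : Cell n) (d : Fin 3) => d) := by
  intro x
  show ((0 : Fin 3) ≠ 1 ∧ (0 : Fin 3) ≠ 2 ∧ (1 : Fin 3) ≠ 2) ∧
    ((0 : Fin 3) ≠ 1 ∧ (0 : Fin 3) ≠ 2 ∧ (1 : Fin 3) ≠ 2)
  decide

lemma par_unif : par (fun (_ : Cell n) (d : Fin 3) => d) = 1 := by
  unfold par
  have : sg 0 1 2 = 1 := by decide
  simp [this]

end Pool.Agent.TH463.Kag
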