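import Pool.Agent.TH463.Kag.Parity

/-!
Colourings of odd parity of the periodic honeycomb graph of every size at least 3, obtained from
six tables by repeating rows and columns.
-/

set_option autoImplicit false

namespace Pool.Agent.TH463.Kag

open Finset

/-- the six arrangements of the three colours -/
def pc : ℕ → Fin 3 → Fin 3
  | 0, d => d
  | 1, d => if d = 0 then 0 else if d = 1 then 2 else 1
  | 2, d => if d = 0 then 1 else if d = 1 then 0 else 2
  | 3, d => if d = 0 then 1 else if d = 1 then 2 else 0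
  | 4, d => if d = 0 then 2 else if d = 1 then 0 else 1
  | _, d => if d = 0 then 2 else if d = 1 then 1 else 0

/-- the colouring given by a table -/
def tb (L : List (List ℕ)) (i j : ℕ) (d : Fin 3) : Fin 3 := pc ((L.getD i []).getD j 0) d

/-- seed of size 3 -/
def S3 : List (List ℕ) :=
  [[5, 1, 2],
   [2, 5, 3],
   [1, 0, 4]]

/-- seed of size 4 -/
def S4 : List (List ℕ) :=
  [[1, 4, 4, 5],
   [3, 2, 0, 2],
   [4, 4, 5, 1],
   [2, 5, 4, 1]]

/-- seed of size 6 -/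
def S6 : List (List ℕ) :=
  [[1, 4, 1, 1, 4, 5],
   [3, 2, 3, 3, 0, 2],
   [4, 1, 1, 4, 5, 1],
   [4, 1, 1, 0, 4, 1],
   [4, 1, 0, 1, 4, 1],
   [2, 5, 1, 1, 4, 1]]

/-- seed of size 5 -/
def S5 : List (List ℕ) :=
  [[3, 2, 5, 3, 2],
   [2, 3, 0, 2, 3],
   [3, 2, 5, 1, 4],
   [4, 1, 4, 3, 0],
   [2, 3, 0, 2, 3]]

/-- seed of size 8 -/
def S8 : List (List ℕ) :=
  [[4, 1, 0, 0, 1, 4, 4, 5],
   [4, 5, 5, 1, 1, 2, 5, 4],
   [0, 0, 4, 1, 0, 1, 2, 2],
   [5, 1, 4, 5, 3, 5, 4, 4],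
   [4, 3, 0, 0, 1, 2, 2, 0],
   [0, 2, 0, 1, 0, 2, 2, 3],
   [0, 4, 1, 0, 0, 4, 3, 2],
   [3, 2, 5, 5, 3, 5, 4, 4]]

/-- seed of size 10 -/
def S10 : List (List ℕ) :=
  [[3, 2, 2, 5, 3, 5, 4, 3, 3, 5],
   [4, 4, 3, 5, 1, 2, 5, 1, 1, 0],
   [2, 5, 3, 2, 0, 1, 2, 3, 0, 1],
   [3, 5, 4, 4, 3, 5, 3, 2, 3, 5],
   [1, 2, 2, 0, 1, 0, 4, 1, 1, 0],
   [0, 4, 4, 3, 0, 1, 4, 3, 0, 1],
   [1, 4, 5, 4, 1, 1, 0, 4, 1, 0],
   [1, 0, 4, 4, 1, 0, 1, 2, 0, 1],
   [0, 1, 2, 2, 0, 1, 0, 4, 1, 1],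
   [3, 5, 4, 4, 3, 5, 3, 2, 3, 5]]


/-- the conditions on a table of size `s` -/
def Good (s : ℕ) (T : ℕ → ℕ → Fin 3 → Fin 3) : Prop :=
  ∀ i < s, ∀ j < s, (T i j 0 ≠ T i j 1 ∧ T i j 0 ≠ T i j 2 ∧ T i j 1 ≠ T i j 2) ∧
    (T i j 0 ≠ T ((i + 1) % s) j 1 ∧ T i j 0 ≠ T i ((j + 1) % s) 2 ∧
      T ((i + 1) % s) j 1 ≠ T i ((j + 1) % s) 2)

instance (s : ℕ) (T : ℕ → ℕ → Fin 3 → Fin 3) : Decidable (Good s T) := by
  unfold Good; infer_instance

/-- the contribution of a cell to the parity -/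
def cn (s : ℕ) (T : ℕ → ℕ → Fin 3 → Fin 3) (i j : ℕ) : ℤ :=
  sg (T i j 0) (T i j 1) (T i j 2) * sg (T i j 0) (T ((i + 1) % s) j 1) (T i ((j + 1) % s) 2)

variable {n : ℕ}

lemma prod_zmod [NeZero n] (g : ℕ → ℤ) : ∏ x : ZMod n, g x.val = ∏ i ∈ range n, g i := by
  obtain ⟨m, rfl⟩ : ∃ m, n = m + 1 := ⟨n - 1, by have := NeZero.pos n; omega⟩
  exact Fin.prod_univ_eq_prod_range g (m + 1)

lemma val_add_one (hn : 2 ≤ n) (x : ZMod n) : (x + 1).val = (x.val + 1) % n := by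
  have : NeZero n := ⟨by omega⟩
  rw [ZMod.val_add, ZMod.val_one'' (by omega)]

/-- the colouring of the torus of size `n` obtained from a table and a reparametrisation -/
def pull (n : ℕ) (φ : ℕ → ℕ) (T : ℕ → ℕ → Fin 3 → Fin 3) : Cell n → Fin 3 → Fin 3 :=
  fun x d => T (φ x.1.val) (φ x.2.val) d

/-- the condition on the reparametrisation -/
structure Rep (n s : ℕ) (T : ℕ → ℕ → Fin 3 → Fin 3) (φ : ℕ → ℕ) : Prop where
  lt : ∀ i < n, φ i < s
  q : ∀ i < n, ∀ j < s, T (φ ((i + 1) % n)) j 1 = T ((φ i + 1) % s) j 1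
  r : ∀ i < n, ∀ j < s, T j (φ ((i + 1) % n)) 2 = T j ((φ i + 1) % s) 2

variable {s : ℕ} {T : ℕ → ℕ → Fin 3 → Fin 3} {φ : ℕ → ℕ}

lemma pull_q (hn : 2 ≤ n) (hφ : Rep n s T φ) (x : Cell n) :
    pull n φ T (x + (1, 0)) 1 = T ((φ x.1.val + 1) % s) (φ x.2.val) 1 := by
  have : NeZero n := ⟨by omega⟩
  have e1 : (x + (1, 0)).1 = x.1 + 1 := rfl
  have e2 : (x + (1, 0)).2 = x.2 := add_zero _
  unfold pull
  rw [e1, e2, val_add_one hn]
  exact hφ.q _ (ZMod.val_lt _) _ (hφ.lt _ (ZMod.val_lt _))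

lemma pull_r (hn : 2 ≤ n) (hφ : Rep n s T φ) (x : Cell n) :
    pull n φ T (x + (0, 1)) 2 = T (φ x.1.val) ((φ x.2.val + 1) % s) 2 := by
  have : NeZero n := ⟨by omega⟩
  have e1 : (x + (0, 1)).1 = x.1 := add_zero _
  have e2 : (x + (0, 1)).2 = x.2 + 1 := rfl
  unfold pull
  rw [e1, e2, val_add_one hn]
  exact hφ.r _ (ZMod.val_lt _) _ (hφ.lt _ (ZMod.val_lt _))

lemma valid_pull (hn : 2 ≤ n) (hφ : Rep n s T φ) (hT : Good s T) : Valid (pull n φ T) := by
  have : NeZero n := ⟨by omega⟩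
  intro x
  rw [pull_q hn hφ, pull_r hn hφ]
  exact hT _ (hφ.lt _ (ZMod.val_lt _)) _ (hφ.lt _ (ZMod.val_lt _))

lemma par_pull [NeZero n] (hn : 2 ≤ n) (hφ : Rep n s T φ) :
    par (pull n φ T) = ∏ i ∈ range n, ∏ j ∈ range n, cn s T (φ i) (φ j) := by
  unfold par
  rw [← Finset.prod_mul_distrib]
  have e : ∀ x : Cell n, sg (pull n φ T x 0) (pull n φ T x 1) (pull n φ T x 2) *
      sg (pull n φ T x 0) (pull n φ T (x + (1, 0)) 1) (pull n φ T (x + (0, 1)) 2) =
      cn s T (φ x.1.val) (φ x.2.val) := by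
    intro x
    rw [pull_q hn hφ, pull_r hn hφ]
    rfl
  rw [Finset.prod_congr rfl fun x _ => e x, ← Finset.univ_product_univ, Finset.prod_product,
    ← prod_zmod (fun i => ∏ j ∈ range n, cn s T (φ i) (φ j))]
  refine Finset.prod_congr rfl fun x _ => ?_
  exact prod_zmod (fun j => cn s T (φ x.val) (φ j))

/-! ### Tables used without repetition -/

lemma rep_id : Rep s s T id where
  lt := fun i hi => hi
  q := fun i _ j _ => by simp
  r := fun i _ j _ => by simp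

/-- there is a valid function of parity `-1` -/
def Odd' (n : ℕ) : Prop := ∃ _ : NeZero n, ∃ f : Cell n → Fin 3 → Fin 3, Valid f ∧ par f = -1

lemma odd_of_table (hs : 2 ≤ s) (hT : Good s T)
    (hp : ∏ i ∈ range s, ∏ j ∈ range s, cn s T i j = -1) : Odd' s := by
  have : NeZero s := ⟨by omega⟩
  refine ⟨this, pull s id T, valid_pull hs rep_id hT, ?_⟩
  rw [par_pull hs rep_id]
  exact hp

/-! ### Tables with repeated rows and columns -/

/-- the reparametrisation: the first `k` indices are repeated `t` more times -/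
def ph (k t : ℕ) (i : ℕ) : ℕ := if i < k * (t + 1) then i % k else i - k * t

lemma ph_lt {k t : ℕ} (hk : 0 < k) (hks : k < s) {i : ℕ} (hi : i < s + k * t) : ph k t i < s := by
  unfold ph
  split_ifs with h
  · exact (Nat.mod_lt _ hk).trans hks
  · omega

lemma ph_succ {k t : ℕ} (hk : 0 < k) (hks : k < s) {i : ℕ} (hi : i < s + k * t) :
    ph k t ((i + 1) % (s + k * t)) = (ph k t i + 1) % s ∨
      (ph k t ((i + 1) % (s + k * t)) = 0 ∧ (ph k t i + 1) % s = k) := by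
  have hkt : k * (t + 1) = k * t + k := by ring
  rcases Nat.lt_or_ge (i + 1) (s + k * t) with h | h
  · rw [Nat.mod_eq_of_lt h]
    unfold ph
    rcases Nat.lt_or_ge (i + 1) (k * (t + 1)) with h1 | h1
    · rw [if_pos h1, if_pos (by omega)]
      rcases Nat.lt_or_ge (i % k + 1) k with h2 | h2
      · left
        rw [Nat.add_mod, Nat.mod_eq_of_lt (show 1 < k by omega), Nat.mod_eq_of_lt h2,
          Nat.mod_eq_of_lt (show i % k + 1 < s by omega)]
      · right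
        have h3 : i % k + 1 = k := by have := Nat.mod_lt i hk; omega
        constructor
        · rw [Nat.add_mod]
          rcases Nat.lt_or_ge 1 k with h4 | h4
          · rw [Nat.mod_eq_of_lt h4, h3, Nat.mod_self]
          · have : k = 1 := by omega
            subst this
            exact Nat.mod_one _
        · rw [h3, Nat.mod_eq_of_lt hks]
    · rw [if_neg (by omega)]
      rcases Nat.lt_or_ge i (k * (t + 1)) with h2 | h2
      · rw [if_pos h2]
        left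
        have h3 : i = k * t + (k - 1) := by omega
        have h4 : i % k = k - 1 := by
          rw [h3, Nat.mul_add_mod]
          exact Nat.mod_eq_of_lt (by omega)
        rw [h4, Nat.mod_eq_of_lt (show k - 1 + 1 < s by omega)]
        omega
      · rw [if_neg (by omega)]
        left
        rw [Nat.mod_eq_of_lt (show i - k * t + 1 < s by omega)]
        omega
  · have h1 : i + 1 = s + k * t := by omega
    rw [h1, Nat.mod_self]
    left
    unfold ph
    rw [if_pos (by positivity), if_neg (by omega)]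
    rw [show i - k * t + 1 = s by omega, Nat.mod_self, Nat.zero_mod]

lemma rep_ph {k : ℕ} (t : ℕ) (hk : 0 < k) (hks : k < s) (hq : ∀ j < s, T 0 j 1 = T k j 1)
    (hr : ∀ j < s, T j 0 2 = T j k 2) : Rep (s + k * t) s T (ph k t) where
  lt := fun i hi => ph_lt hk hks hi
  q := fun i hi j hj => by
    rcases ph_succ hk hks hi with h | ⟨h1, h2⟩
    · rw [h]
    · rw [h1, h2]
      exact hq j hj
  r := fun i hi j hj => by
    rcases ph_succ hk hks hi with h | ⟨h1, h2⟩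
    · rw [h]
    · rw [h1, h2]
      exact hr j hj

lemma prod_mod (k : ℕ) (g : ℕ → ℤ) : ∀ t : ℕ,
    ∏ i ∈ range (k * t), g (i % k) = (∏ i ∈ range k, g i) ^ t
  | 0 => by simp
  | t + 1 => by
    rw [Nat.mul_succ, Finset.prod_range_add, prod_mod k g t, pow_succ]
    congr 1
    refine Finset.prod_congr rfl fun i hi => ?_
    rw [Nat.mul_add_mod, Nat.mod_eq_of_lt (Finset.mem_range.1 hi)]

lemma prod_ph {k : ℕ} (t : ℕ) (hks : k < s) (g : ℕ → ℤ) :
    ∏ i ∈ range (s + k * t), g (ph k t i) = (∏ i ∈ range k, g i) ^ t * ∏ i ∈ range s, g i := by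
  have hkt : k * (t + 1) = k * t + k := by ring
  rw [show s + k * t = k * (t + 1) + (s - k) by omega, Finset.prod_range_add]
  have e1 : ∏ i ∈ range (k * (t + 1)), g (ph k t i) = (∏ i ∈ range k, g i) ^ (t + 1) := by
    rw [← prod_mod]
    refine Finset.prod_congr rfl fun i hi => ?_
    unfold ph
    rw [if_pos (Finset.mem_range.1 hi)]
  have e2 : ∏ i ∈ range (s - k), g (ph k t (k * (t + 1) + i)) = ∏ i ∈ range (s - k), g (k + i) := by
    refine Finset.prod_congr rfl fun i _ => ?_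
    unfold ph
    rw [if_neg (by omega)]
    congr 1
    omega
  rw [e1, e2, pow_succ, mul_assoc, ← Finset.prod_range_add, show k + (s - k) = s by omega]

lemma odd_of_rep {k : ℕ} (t : ℕ) (hs : 2 ≤ s) (hk : 0 < k) (hks : k < s) (hT : Good s T)
    (hq : ∀ j < s, T 0 j 1 = T k j 1) (hr : ∀ j < s, T j 0 2 = T j k 2)
    (hp : ∏ i ∈ range s, ∏ j ∈ range s, cn s T i j = -1)
    (hI : (∏ i ∈ range k, ∏ j ∈ range s, cn s T i j) * (∏ i ∈ range s, ∏ j ∈ range k, cn s T i j) *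
      (∏ i ∈ range k, ∏ j ∈ range k, cn s T i j) = 1)
    (hIJ : (∏ i ∈ range k, ∏ j ∈ range k, cn s T i j) ^ 2 = 1) : Odd' (s + k * t) := by
  have : NeZero (s + k * t) := ⟨by omega⟩
  have hφ := rep_ph t hk hks hq hr
  refine ⟨this, pull (s + k * t) (ph k t) T, valid_pull (by omega) hφ hT, ?_⟩
  rw [par_pull (by omega) hφ]
  have e1 : ∀ i, ∏ j ∈ range (s + k * t), cn s T (ph k t i) (ph k t j) =
      (∏ j ∈ range k, cn s T (ph k t i) j) ^ t * ∏ j ∈ range s, cn s T (ph k t i) j := fun i =>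
    prod_ph t hks (fun j => cn s T (ph k t i) j)
  rw [Finset.prod_congr rfl fun i _ => e1 i,
    prod_ph t hks (fun i => (∏ j ∈ range k, cn s T i j) ^ t * ∏ j ∈ range s, cn s T i j),
    Finset.prod_mul_distrib, Finset.prod_mul_distrib, Finset.prod_pow, Finset.prod_pow, hp]
  set X := ∏ i ∈ range k, ∏ j ∈ range k, cn s T i j with hX
  set Y := ∏ i ∈ range k, ∏ j ∈ range s, cn s T i j with hY
  set Z := ∏ i ∈ range s, ∏ j ∈ range k, cn s T i j with hZ
  have h1 : (X ^ t) ^ t = X ^ t := by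
    have h2 : X = 1 ∨ X = -1 := mul_self_eq_one_iff.1 (by rw [← sq]; exact hIJ)
    rcases h2 with h2 | h2
    · rw [h2]; simp
    · rw [h2]
      rcases Nat.even_or_odd t with ht | ht
      · rw [ht.neg_one_pow, one_pow]
      · rw [ht.neg_one_pow, ht.neg_one_pow]
  calc (X ^ t * Y) ^ t * (Z ^ t * -1) = -((X ^ t) ^ t * Y ^ t * Z ^ t) := by ring
    _ = -(X ^ t * Y ^ t * Z ^ t) := by rw [h1]
    _ = -((Y * Z * X) ^ t) := by ring
    _ = -1 := by rw [hI, one_pow]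

end Pool.Agent.TH463.Kag
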